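import Pool.Agent.Work.MP_be705b_al.E.Final

set_option autoImplicit false

/-!
# The pinched Veronese ring has no quadratic Gröbner basis for orders with a dominant variable

Over every field and in all linear coordinates, for instance for the lexicographic and the degree
lexicographic orders.  The definitions `monos`, `pvIdeal`, `change` are in
`Pool.Agent.Work.MP_be705b_al.Change`.
-/

namespace Pool.Agent.Results.MP_be705b_al.NoQuadraticElimination

open MvPolynomial Pool.Agent.BR

/-- `G` is a Gröbner basis of the ideal `J` for the monomial order `τ`: `G ⊆ J`, and the leading monomial of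
every nonzero element of `J` is a multiple of the leading monomial of a nonzero element of `G`. -/
def IsGroebner {K : Type*} [Field K] (τ : MonomialOrder (Fin 9)) (J : Ideal (MvPolynomial (Fin 9) K))
    (G : Set (MvPolynomial (Fin 9) K)) : Prop :=
  (∀ f ∈ G, f ∈ J) ∧ ∀ F ∈ J, F ≠ 0 → ∃ f ∈ G, f ≠ 0 ∧ τ.degree f ≤ τ.degree F

/-- The variable `t_s` is dominant in degree two: every quadratic monomial which is a multiple of `t_s` is
larger than every quadratic monomial which is not. -/
def Dominant (τ : MonomialOrder (Fin 9)) (s : Fin 9) : Prop :=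
  ∀ i j k : Fin 9, j ≠ s → k ≠ s →
    τ.toSyn (Finsupp.single j 1 + Finsupp.single k 1) < τ.toSyn (Finsupp.single s 1 + Finsupp.single i 1)

/-- The order `τ` eliminates the variable `t_s` from the quadrics of `J`: a quadric in `J` whose leading
monomial is not a multiple of `t_s` does not involve `t_s` at all. -/
def Eliminates {K : Type*} [Field K] (τ : MonomialOrder (Fin 9)) (J : Ideal (MvPolynomial (Fin 9) K))
    (s : Fin 9) : Prop :=
  ∀ q ∈ J, q.IsHomogeneous 2 → τ.degree q s = 0 → ∀ m ∈ q.support, m s = 0

/-- Let `K` be a field and `g` a linear change of coordinates.  If `τ` is a monomial order such that some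
variable `t_s` is dominant in degree two, or more generally such that `τ` eliminates `t_s` from the quadrics
of the ideal `g(I)` of the pinched Veronese ring, then `g(I)` has no Gröbner basis of homogeneous quadrics
for `τ`. -/
theorem result (K : Type*) [Field K] (g : Matrix.GeneralLinearGroup (Fin 9) K) (τ : MonomialOrder (Fin 9))
    (s : Fin 9)
    (h : Dominant τ s ∨ Eliminates τ ((pvIdeal K).map (change (g : Matrix (Fin 9) (Fin 9) K))) s) :
    ¬ ∃ G : Set (MvPolynomial (Fin 9) K),
      IsGroebner τ ((pvIdeal K).map (change (g : Matrix (Fin 9) (Fin 9) K))) G ∧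
        ∀ f ∈ G, f.IsHomogeneous 2 := by
  have hel : Eliminates τ ((pvIdeal K).map (change (g : Matrix (Fin 9) (Fin 9) K))) s := by
    rcases h with h | h
    · intro q _ hq2 hs m hm
      by_contra hms
      have hq0 : q ≠ 0 := by
        rintro rfl
        simp at hm
      have key : ∀ m ∈ q.support, ∃ i j : Fin 9, m = Finsupp.single i 1 + Finsupp.single j 1 := by
        intro m hm
        obtain ⟨c, hc⟩ := Pool.Agent.BE.quad_expand hq2
        by_contra hcon
        push Not at hcon
        refine (mem_support_iff.1 hm) ?_
        rw [hc, coeff_sum]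
        refine Finset.sum_eq_zero fun i _ => ?_
        rw [Finset.mul_sum, coeff_sum]
        refine Finset.sum_eq_zero fun j _ => ?_
        have e : (X i * (C (c i j) * X j) : MvPolynomial (Fin 9) K) =
            monomial (Finsupp.single i 1 + Finsupp.single j 1) (c i j) := by
          rw [X, X, C_mul_monomial, monomial_mul]
          simp
        rw [e, coeff_monomial, if_neg (fun h => hcon i j h.symm)]
      obtain ⟨i, j, hij⟩ := key m hm
      obtain ⟨a, b, hab⟩ := key _ (τ.degree_mem_support hq0)
      have ha : a ≠ s := by
        rintro rfl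
        rw [hab] at hs
        simp at hs
      have hb : b ≠ s := by
        rintro rfl
        rw [hab] at hs
        simp at hs
      have hle : τ.toSyn m ≤ τ.toSyn (τ.degree q) := τ.le_degree hm
      rw [hab] at hle
      by_cases his : i = s
      · subst his
        rw [hij] at hle
        exact absurd (h j a b ha hb) (not_lt.2 hle)
      · have hjs : j = s := by
          by_contra hjs
          apply hms
          rw [hij]
          simp [Finsupp.single_apply, his, hjs]
        subst hjs
        rw [hij, add_comm (Finsupp.single i 1)] at hle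
        exact absurd (h i a b ha hb) (not_lt.2 hle)
    · exact h
  rintro ⟨G, ⟨h1, h2⟩, h3⟩
  have hg1 : ((g⁻¹ : Matrix.GeneralLinearGroup (Fin 9) K) : Matrix (Fin 9) (Fin 9) K) *
      (g : Matrix (Fin 9) (Fin 9) K) = 1 := by
    rw [← Units.val_mul, inv_mul_cancel, Units.val_one]
  have hg2 : (g : Matrix (Fin 9) (Fin 9) K) *
      ((g⁻¹ : Matrix.GeneralLinearGroup (Fin 9) K) : Matrix (Fin 9) (Fin 9) K) = 1 := by
    rw [← Units.val_mul, mul_inv_cancel, Units.val_one]
  refine Pool.Agent.BE.final hg1 hg2 τ s hel ?_
  intro F hF hF0
  obtain ⟨f, hf, hf0, hle⟩ := h2 F hF hF0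
  exact ⟨f, h1 f hf, hf0, h3 f hf, hle⟩

end Pool.Agent.Results.MP_be705b_al.NoQuadraticElimination
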