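import Pool.Agent.Work.MP_be705b_al.Main

set_option autoImplicit false

/-!
# The pinched Veronese ring has no quadratic Gröbner basis for degree reverse lexicographic orders

Over every field and in all linear coordinates.  The definitions `RevLt`, `IsLead` are in
`Pool.Agent.Work.MP_be705b_al.GDefs`, the definitions `monos`, `pvIdeal`, `change` in
`Pool.Agent.Work.MP_be705b_al.Change`.
-/

namespace Pool.Agent.Results.MP_be705b_al.NoQuadraticRevlex

open MvPolynomial Pool.Agent.BR

/-- The set `G` of elements of the ideal `J` is a Gröbner basis of `J` for the degree reverse lexicographic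
order: the leading monomial of every (nonzero) element of `J` is a multiple of the leading monomial of an
element of `G`. -/
def IsGroebner {K : Type*} [Field K] {n : ℕ} (J : Ideal (MvPolynomial (Fin n) K))
    (G : Set (MvPolynomial (Fin n) K)) : Prop :=
  (∀ f ∈ G, f ∈ J) ∧ ∀ F ∈ J, ∀ m, IsLead F m → ∃ f ∈ G, ∃ m', IsLead f m' ∧ m' ≤ m

/-- For every field `K` and every linear change of coordinates `g`, the ideal `g(I)` of the pinched Veronese
ring has no Gröbner basis of homogeneous quadrics for the degree reverse lexicographic order. -/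
theorem result (K : Type*) [Field K] (g : Matrix.GeneralLinearGroup (Fin 9) K) :
    ¬ ∃ G : Set (MvPolynomial (Fin 9) K),
      IsGroebner ((pvIdeal K).map (change (g : Matrix (Fin 9) (Fin 9) K))) G ∧
        ∀ f ∈ G, f.IsHomogeneous 2 := by
  rintro ⟨G, ⟨h1, h2⟩, h3⟩
  have hg1 : ((g⁻¹ : Matrix.GeneralLinearGroup (Fin 9) K) : Matrix (Fin 9) (Fin 9) K) *
      (g : Matrix (Fin 9) (Fin 9) K) = 1 := by
    rw [← Units.val_mul, inv_mul_cancel, Units.val_one]
  have hg2 : (g : Matrix (Fin 9) (Fin 9) K) *
      ((g⁻¹ : Matrix.GeneralLinearGroup (Fin 9) K) : Matrix (Fin 9) (Fin 9) K) = 1 := by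
    rw [← Units.val_mul, mul_inv_cancel, Units.val_one]
  refine not_quadraticGB_change hg1 hg2 ?_
  intro F hF m hm
  obtain ⟨f, hf, m', hm', hle⟩ := h2 F hF m hm
  exact ⟨f, h1 f hf, h3 f hf, m', hm', hle⟩

end Pool.Agent.Results.MP_be705b_al.NoQuadraticRevlex
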